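import Pool.Agent.J4H13.RL.Kummer
import Pool.Agent.J4H13.RL.Pencil

/-!
# Correspondences and divisors on curves: definitions and statements of the pieces
-/

set_option autoImplicit false

namespace Pool.Agent.J4H13.RM

open Pool.Agent.Helper397.HK Pool.Agent.J4H13.BC

/-- `V` is a point of the smooth projective curve over `ℂ` with the function field `E`. -/
def IsPlace {E : Type} [Field E] [Algebra ℂ E] (V : ValuationSubring E) : Prop :=
  (∀ c : ℂ, algebraMap ℂ E c ∈ V) ∧ V ≠ ⊤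

/-- The function `u` has the order `n` at the point `V` of the curve; `π` is a local parameter. -/
def OrdAt {E : Type} [Field E] (V : ValuationSubring E) (u : E) (n : ℤ) : Prop :=
  ∃ π : E, π ≠ 0 ∧ π ∈ V.nonunits ∧ (∀ z ∈ V.nonunits, z / π ∈ V) ∧ u / π ^ n ∈ V ∧ π ^ n / u ∈ V

/-- The point `φ` of `Spec B` is mapped to the point `V` of the curve with the function field `E`. -/
def MapsTo {K : Type} [Field K] [Algebra ℂ K] (E : IntermediateField ℂ K) {B : Subalgebra ℂ K}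
    (φ : B →ₐ[ℂ] ℂ) (V : ValuationSubring E) : Prop :=
  ∀ (b : B) (h : (b : K) ∈ E), (⟨b, h⟩ : E) - algebraMap ℂ E (φ b) ∈ V.nonunits

open scoped Classical in
/-- The image of the zero-cycle `∑ n a * φ a` on the curve with the function field `E` is the divisor
of a function `u`. -/
def Principal {K : Type} [Field K] [Algebra ℂ K] (E : IntermediateField ℂ K) {B : Subalgebra ℂ K}
    {ι : Type} [Fintype ι] (n : ι → ℤ) (φ : ι → B →ₐ[ℂ] ℂ) : Prop :=
  ∃ u : E, u ≠ 0 ∧ ∀ V : ValuationSubring E, IsPlace V →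
    OrdAt V u (∑ a, if MapsTo E (φ a) V then n a else 0)

/-- The places `W j` are the zeros of `u`, with multiplicities. -/
def Zeros {M : Type} [Field M] [Algebra ℂ M] (u : M) {r : ℕ} (W : Fin r → ValuationSubring M) :
    Prop :=
  ∃ P : Fin r → Ideal (Aff u), (∀ j, (P j).IsMaximal) ∧
    ∏ j, P j = Ideal.span {b : Aff u | (b : M) = u} ∧
    ∀ j (b : Aff u), (b : M) ∈ W j ∧ (b ∈ P j ↔ (b : M) ∈ (W j).nonunits)

open scoped Classical in
/-- (CNT) The zeros of `u` in an extension `M / E` of degree `m`: over the zero `V` there are `m * ord V u`. -/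
def S_CNT : Prop := ∀ (E M : Type) [Field E] [Algebra ℂ E] [Field M] [Algebra ℂ M],
  CurveField E → CurveField M → ∀ i : E →ₐ[ℂ] M, ∃ m : ℕ, m ≠ 0 ∧
    ∀ (u : E), Transcendental ℂ u → ∀ (G : Type) [AddCommGroup G] (D : ValuationSubring M → G)
      (ι : Type) [Fintype ι] (n : ι → ℤ) (V : ι → ValuationSubring E) (d : ι → G),
      (∀ a, IsPlace (V a)) →
      (∀ V', IsPlace V' → OrdAt V' u (∑ a, if V a = V' then n a else 0)) →
      (∀ (a : ι) (W : ValuationSubring M), IsPlace W → W.comap (i : E →+* M) = V a → D W = d a) →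
      ∀ (r : ℕ) (W : Fin r → ValuationSubring M), Zeros (i u) W →
        ∑ j, D (W j) = m • ∑ a, if u ∈ (V a).nonunits then n a • d a else 0

/-- (REL) The relation given by a function, with a class which depends on the place. -/
def S_REL : Prop := ∀ (N : ℕ) (Y : ProjVar N) (A M : Type) [CommRing A] [Algebra ℂ A] [Field M]
  [Algebra ℂ M] (η : Fin (N + 1) → A), Y.OnCone η → CurveField M → ∀ (u : M), Transcendental ℂ u →
  ∀ (κ : Type) [Fintype κ] [Nonempty κ] (Θ : κ → A →ₐ[ℂ] M) (D : ValuationSubring M → CH0 Y),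
  (∀ V : ValuationSubring M, IsPlace V → (u ∈ V.nonunits ∨ u⁻¹ ∈ V.nonunits) →
    ∃ (φ : κ → A →ₐ[ℂ] ℂ) (c : κ → CH0 Y), (∀ k, ResAt V (Θ k) (φ k)) ∧
      (∀ k, HasCls η (φ k) (c k)) ∧ ∑ k, c k = D V) →
  ∃ (r r' : ℕ) (W : Fin r → ValuationSubring M) (W' : Fin r' → ValuationSubring M),
    Zeros u W ∧ Zeros u⁻¹ W' ∧ (∀ j, IsPlace (W j)) ∧ (∀ j, IsPlace (W' j)) ∧
    ∑ j, D (W j) = ∑ j, D (W' j)

/-- (SEC) Sections of a family of rational curves over a curve. -/
def S_SEC : Prop := ∀ (A H : Type) [CommRing A] [IsDomain A] [Algebra ℂ A] [Algebra.FiniteType ℂ A]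
    [Group H] [Finite H] [MulSemiringAction H A] [SMulCommClass H ℂ A]
    (R : Type) [CommRing R] [IsDomain R] [Algebra ℂ R] [Algebra.FiniteType ℂ R]
    (E : Type) [Field E] [Algebra ℂ E] (ε : R →ₐ[ℂ] E)
    (j : FixedPoints.subalgebra ℂ A H →ₐ[ℂ] FractionRing (Polynomial R))
    (ρ : R →ₐ[ℂ] FixedPoints.subalgebra ℂ A H), Function.Injective j →
    (∀ r, j (ρ r) = algebraMap (Polynomial R) _ (Polynomial.C r)) → CurveField E →
    Function.Injective ε → ∀ h₁ : A, h₁ ≠ 0 → ∃ h : A, h ≠ 0 ∧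
      ∀ (ι : Type) [Finite ι] (φ : ι → A →ₐ[ℂ] ℂ), (∀ a, φ a h ≠ 0) →
      ∃ (M : Type) (_ : Field M) (_ : Algebra ℂ M) (i : E →ₐ[ℂ] M) (Θ : A →ₐ[ℂ] M),
        CurveField M ∧ (∀ r, Θ (ρ r) = i (ε r)) ∧
        ∀ (a : ι) (W : ValuationSubring M), (∀ c : ℂ, algebraMap ℂ M c ∈ W) →
          (∀ r, i (ε r) - algebraMap ℂ M (φ a (ρ r)) ∈ W.nonunits) →
          ∃ ψ : A →ₐ[ℂ] ℂ, ResAt W Θ ψ ∧ ψ h₁ ≠ 0

open scoped Classical in
/-- (PD) The sum of the orbits of the points of a cycle, whose image on the curve is principal. -/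
def S_PD : Prop := ∀ (A H : Type) [CommRing A] [IsDomain A] [Algebra ℂ A] [Algebra.FiniteType ℂ A]
    [Group H] [Fintype H] [MulSemiringAction H A] [SMulCommClass H ℂ A]
    (R : Type) [CommRing R] [IsDomain R] [Algebra ℂ R] [Algebra.FiniteType ℂ R]
    (E : Type) [Field E] [Algebra ℂ E] (ε : R →ₐ[ℂ] E)
    (j : FixedPoints.subalgebra ℂ A H →ₐ[ℂ] FractionRing (Polynomial R))
    (ρ : R →ₐ[ℂ] FixedPoints.subalgebra ℂ A H), Function.Injective j →
    (∀ r, j (ρ r) = algebraMap (Polynomial R) _ (Polynomial.C r)) → CurveField E →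
    Function.Injective ε → ∀ (N : ℕ) (η : Fin (N + 1) → A), η ≠ 0 → ∃ h : A, h ≠ 0 ∧
      ∀ (Y : ProjVar N), Y.OnCone η → ∀ (ι : Type) [Fintype ι] (n : ι → ℤ)
        (φ : ι → A →ₐ[ℂ] ℂ) (V : ι → ValuationSubring E), (∀ a, φ a h ≠ 0) →
        (∀ a, IsPlace (V a)) →
        (∀ a r, ε r - algebraMap ℂ E (φ a (ρ r)) ∈ (V a).nonunits) →
        (∃ u : E, u ≠ 0 ∧ ∀ V', IsPlace V' → OrdAt V' u (∑ a, if V a = V' then n a else 0)) →
        ∑ a, n a • ∑ σ : H, hc Y η (act (φ a) σ) = 0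

/-- The ring `R` is the ring of regular functions on an affine smooth curve with the function
field `E`. -/
def CurveRing {K : Type} [Field K] [Algebra ℂ K] (E : IntermediateField ℂ K)
    (R : Subalgebra ℂ K) : Prop :=
  R.FG ∧ IsDedekindDomain R ∧ ¬ IsField R ∧ (∀ r : R, (r : K) ∈ E) ∧
    ∀ z ∈ E, ∃ a b : R, b ≠ 0 ∧ z * b = a

/-- (NOR) Each point of `Spec B` is mapped to exactly one point of the curve. -/
def S_NOR : Prop := ∀ (K : Type) [Field K] [Algebra ℂ K] (E : IntermediateField ℂ K)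
  (R B : Subalgebra ℂ K), CurveRing E R → R ≤ B → ∀ φ : B →ₐ[ℂ] ℂ,
  ∃! V : ValuationSubring E, IsPlace V ∧ MapsTo E φ V

/-- The field `L` contains `k₀` and `z` and is dominated by a family of rational curves over the curve with the
function field `E`, which is contained in `k₀(z)`. -/
def CurveRel {K : Type} [Field K] [Algebra ℂ K] (k₀ : IntermediateField ℂ K) (z : K)
    (E : IntermediateField ℂ K) : Prop :=
  CurveField E ∧ ∃ (R : Subalgebra ℂ K) (L : IntermediateField ℂ K) (hRL : ∀ r : R, (r : K) ∈ L)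
    (j : L →ₐ[ℂ] FractionRing (Polynomial R)), CurveRing E R ∧ k₀ ≤ L ∧ z ∈ L ∧
    (∀ r : R, (r : K) ∈ IntermediateField.adjoin k₀ {z}) ∧
    ∀ r : R, j ⟨r, hRL r⟩ = algebraMap (Polynomial R) _ (Polynomial.C r)

/-- (RF) Pencils. -/
def S_RF : Prop := ∀ (K : Type) [Field K] [Algebra ℂ K] (x y : K),
  AlgebraicIndependent ℂ ![x, y] → ∀ (k₀ : IntermediateField ℂ K),
  k₀ = IntermediateField.adjoin ℂ {x, y} → ∀ w : K, w ≠ 0 → RL.Pencil x y w →
  ∃ (t v : K) (P : Polynomial ℂ), Transcendental ℂ t ∧ v ^ 2 = Polynomial.aeval t P ∧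
    CurveRel k₀ w (IntermediateField.adjoin ℂ {t, v})

end Pool.Agent.J4H13.RM
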